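import Pool.Agent.H48.RG.Targets

/-! D_TSE: extension of the class of test functions. -/

set_option autoImplicit false

namespace Pool.Agent.H51.RG.TSE

open MeasureTheory Metric Set Filter Topology Pool.Agent.H87.SN Pool.Agent.H48.RG
open scoped ContDiff RealInnerProductSpace ENNReal

variable {X : Type} [MeasurableSpace X] {μ : Measure X} {n : ℕ}

/-- Cauchy-Schwarz -/
theorem cs {G w : X → E n} (hG : MemLp G 2 μ) (hw : MemLp w 2 μ) :
    Integrable (fun x => ⟪G x, w x⟫) μ ∧
    |∫ x, ⟪G x, w x⟫ ∂μ| ≤ (∫ x, ‖G x‖ ^ 2 ∂μ) ^ (1 / 2 : ℝ) * (∫ x, ‖w x‖ ^ 2 ∂μ) ^ (1 / 2 : ℝ) := by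
  have h1 : Integrable (fun x => ‖G x‖ * ‖w x‖) μ := hG.norm.integrable_mul hw.norm
  have h2 : Integrable (fun x => ⟪G x, w x⟫) μ := by
    refine h1.mono' (hG.1.inner hw.1) (ae_of_all _ fun x => ?_)
    exact abs_real_inner_le_norm _ _
  refine ⟨h2, ?_⟩
  have h3 := integral_mul_le_Lp_mul_Lq_of_nonneg (p := 2) (q := 2) (μ := μ)
    (f := fun x => ‖G x‖) (g := fun x => ‖w x‖) Real.HolderConjugate.two_two
    (ae_of_all _ fun x => norm_nonneg _) (ae_of_all _ fun x => norm_nonneg _)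
    (by simpa using hG.norm) (by simpa using hw.norm)
  simp only [Real.rpow_two] at h3
  refine le_trans ?_ h3
  refine (abs_integral_le_integral_abs).trans ?_
  exact integral_mono h2.abs h1 fun x => abs_real_inner_le_norm _ _

theorem pf_TSE (hM : T_MLS) : T_TSE := by
  intro n G h hG hh hid ρ f D hρ hρ1 hf
  obtain ⟨F, hF1, hF2, hF3, hF4, hF5⟩ := hM n ρ f D hρ hρ1 hf
  have hgr : ∀ k x, fderiv ℝ (F k) x (G x) = ⟪G x, gradient (F k) x⟫ := by
    intro k x
    rw [real_inner_comm, gradient, InnerProductSpace.toDual_symm_apply]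
  have hD : MemLp D 2 (volume.restrict (ball (0 : E n) 1)) := by
    have := hf.wb.d2
    rw [Measure.restrict_univ] at this
    exact this.restrict _
  have hw : ∀ k, MemLp (fun x => gradient (F k) x - D x) 2
      (volume.restrict (ball (0 : E n) 1)) := fun k => (hF4 k).restrict _
  have hI0 := (cs hG hD).1
  -- the left side
  have hL : Tendsto (fun k => ∫ x in ball (0 : E n) 1, fderiv ℝ (F k) x (G x)) atTop
      (𝓝 (∫ x in ball (0 : E n) 1, ⟪G x, D x⟫)) := by
    rw [tendsto_iff_norm_sub_tendsto_zero]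
    have hb : ∀ k, ‖(∫ x in ball (0 : E n) 1, fderiv ℝ (F k) x (G x)) -
        ∫ x in ball (0 : E n) 1, ⟪G x, D x⟫‖ ≤
        (∫ x in ball (0 : E n) 1, ‖G x‖ ^ 2) ^ (1 / 2 : ℝ) *
          (∫ x, ‖gradient (F k) x - D x‖ ^ 2) ^ (1 / 2 : ℝ) := by
      intro k
      obtain ⟨h1, h2⟩ := cs hG (hw k)
      have e1 : (∫ x in ball (0 : E n) 1, fderiv ℝ (F k) x (G x)) -
          ∫ x in ball (0 : E n) 1, ⟪G x, D x⟫ =
          ∫ x in ball (0 : E n) 1, ⟪G x, gradient (F k) x - D x⟫ := by
        have e2 : (fun x => fderiv ℝ (F k) x (G x)) =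
            fun x => ⟪G x, gradient (F k) x - D x⟫ + ⟪G x, D x⟫ := by
          funext x
          rw [hgr k x, ← inner_add_right, sub_add_cancel]
        rw [e2, integral_add h1 hI0]
        ring
      rw [e1, Real.norm_eq_abs]
      refine h2.trans ?_
      refine mul_le_mul_of_nonneg_left ?_ (by positivity)
      refine Real.rpow_le_rpow (by positivity) ?_ (by norm_num)
      have hi : Integrable (fun x => ‖gradient (F k) x - D x‖ ^ 2) volume :=
        (hF4 k).integrable_norm_pow (by norm_num)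
      exact setIntegral_le_integral hi (ae_of_all _ fun x => by positivity)
    have hz : Tendsto (fun k => (∫ x in ball (0 : E n) 1, ‖G x‖ ^ 2) ^ (1 / 2 : ℝ) *
          (∫ x, ‖gradient (F k) x - D x‖ ^ 2) ^ (1 / 2 : ℝ)) atTop (𝓝 0) := by
      have h1 : Tendsto (fun k => (∫ x, ‖gradient (F k) x - D x‖ ^ 2) ^ (1 / 2 : ℝ)) atTop
          (𝓝 ((0 : ℝ) ^ (1 / 2 : ℝ))) :=
        hF5.rpow_const (Or.inr (by norm_num))
      rw [Real.zero_rpow (by norm_num)] at h1
      have h2 := h1.const_mul ((∫ x in ball (0 : E n) 1, ‖G x‖ ^ 2) ^ (1 / 2 : ℝ))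
      rwa [mul_zero] at h2
    exact squeeze_zero (fun k => norm_nonneg _) hb hz
  -- the right side
  obtain ⟨B, hB⟩ := hf.wb.bd
  rw [Measure.restrict_univ] at hB
  have hR : Tendsto (fun k => ∫ x in ball (0 : E n) 1, F k x * h x) atTop
      (𝓝 (∫ x in ball (0 : E n) 1, f x * h x)) := by
    refine tendsto_integral_of_dominated_convergence (fun x => B * |h x|) (fun k => ?_) ?_ ?_ ?_
    · exact (hF1 k).1.continuous.aestronglyMeasurable.mul hh.1
    · exact (Integrable.abs hh).const_mul B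
    · intro k
      refine ae_of_all _ fun x => ?_
      rw [norm_mul, Real.norm_eq_abs, Real.norm_eq_abs]
      exact mul_le_mul_of_nonneg_right (hF3 B hB k x) (abs_nonneg _)
    · filter_upwards [ae_restrict_of_ae hF2] with x hx
      exact hx.mul_const _
  refine tendsto_nhds_unique hL ?_
  refine hR.congr fun k => ?_
  exact (hid (F k) (hF1 k)).symm

end Pool.Agent.H51.RG.TSE
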