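import Pool.Agent.H70.RG.Targets

/-! ESER: series of functions in the Hölder classes. -/

set_option autoImplicit false

namespace Pool.Agent.H51.RG

open MeasureTheory Metric Set Filter Topology Pool.Agent.H87.SN Pool.Agent.H70.RG
open scoped ContDiff

variable {n : ℕ} {F : Type} [NormedAddCommGroup F] [NormedSpace ℝ F]

theorem hb_bd {γ C : ℝ} {j : ℕ} {v : E n → F} {B : Set (E n)} (h : HB γ C j v B) :
    ∀ x ∈ B, ‖v x‖ ≤ C := by
  cases j with
  | zero => exact h.1
  | succ j => exact fun x hx => (h.1 x hx).1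

theorem hb_congr {γ C : ℝ} {B : Set (E n)} (hB : IsOpen B) (j : ℕ) :
    ∀ v w : E n → F, (∀ x ∈ B, v x = w x) → HB γ C j v B → HB γ C j w B := by
  induction j with
  | zero =>
    intro v w hvw h
    refine ⟨fun x hx => ?_, fun y hy z hz => ?_⟩
    · rw [← hvw x hx]
      exact h.1 x hx
    · rw [← hvw y hy, ← hvw z hz]
      exact h.2 y hy z hz
  | succ j ih =>
    intro v w hvw h
    have he : ∀ x ∈ B, v =ᶠ[𝓝 x] w := fun x hx =>
      Filter.eventually_of_mem (hB.mem_nhds hx) hvw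
    refine ⟨fun x hx => ⟨?_, ?_⟩, fun i => ?_⟩
    · rw [← hvw x hx]
      exact (h.1 x hx).1
    · exact (he x hx).differentiableAt_iff.1 (h.1 x hx).2
    · refine ih _ _ (fun x hx => ?_) (h.2 i)
      rw [(he x hx).fderiv_eq]

theorem hb_empty (γ C : ℝ) (j : ℕ) : ∀ v : E n → F, HB γ C j v (∅ : Set (E n)) := by
  induction j with
  | zero => exact fun v => ⟨fun x hx => hx.elim, fun y hy => hy.elim⟩
  | succ j ih => exact fun v => ⟨fun x hx => hx.elim, fun i => ih _⟩

theorem opNorm_le (L : E n →L[ℝ] F) {C : ℝ} (hC : 0 ≤ C) (h : ∀ i, ‖L (bv i)‖ ≤ C) :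
    ‖L‖ ≤ n * C := by
  refine L.opNorm_le_bound (by positivity) fun x => ?_
  have h1 : x = ∑ i, x i • (bv i : E n) := by
    ext k
    simp [bv, Finset.sum_apply, Pi.single_apply]
  calc ‖L x‖ = ‖∑ i, x i • L (bv i)‖ := by
        conv_lhs => rw [h1]
        rw [map_sum]
        simp only [map_smul]
    _ ≤ ∑ i, ‖x i • L (bv i)‖ := norm_sum_le _ _
    _ ≤ ∑ _i : Fin n, ‖x‖ * C := by
        refine Finset.sum_le_sum fun i _ => ?_
        rw [norm_smul]
        exact mul_le_mul (PiLp.norm_apply_le x i) (h i) (norm_nonneg _) (norm_nonneg _)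
    _ = n * C * ‖x‖ := by
        rw [Finset.sum_const, Finset.card_univ, Fintype.card_fin, nsmul_eq_mul]
        ring

theorem pf_SER : T_SER := by
  intro n F _ _ _ γ C x₀ r hγ hγ1 hC
  rcases le_or_gt r 0 with hr | hr
  · have hB : ball x₀ r = ∅ := ball_eq_empty.2 hr
    rw [hB]
    exact fun j w _ => ⟨fun x hx => hx.elim, hb_empty _ _ j _⟩
  have hx₀ : x₀ ∈ ball x₀ r := mem_ball_self hr
  intro j
  induction j with
  | zero =>
    intro w h
    have hC0 : ∀ k, 0 ≤ C k := fun k => (norm_nonneg _).trans ((h k).1 x₀ hx₀)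
    have hs : ∀ x ∈ ball x₀ r, Summable (fun k => w k x) := fun x hx =>
      Summable.of_norm_bounded hC (fun k => (h k).1 x hx)
    refine ⟨hs, fun x hx => tsum_of_norm_bounded hC.hasSum (fun k => (h k).1 x hx),
      fun y hy z hz => ?_⟩
    simp only
    rw [← (hs y hy).tsum_sub (hs z hz)]
    exact tsum_of_norm_bounded (hC.hasSum.mul_right _) (fun k => (h k).2 y hy z hz)
  | succ j ih =>
    intro w h
    have hC0 : ∀ k, 0 ≤ C k := fun k => (norm_nonneg _).trans ((h k).1 x₀ hx₀).1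
    have hs : ∀ x ∈ ball x₀ r, Summable (fun k => w k x) := fun x hx =>
      Summable.of_norm_bounded hC (fun k => ((h k).1 x hx).1)
    have hbd : ∀ k, ∀ x ∈ ball x₀ r, ‖fderiv ℝ (w k) x‖ ≤ n * C k := fun k x hx =>
      opNorm_le _ (hC0 k) fun i => hb_bd ((h k).2 i) x hx
    have hder : ∀ x ∈ ball x₀ r, HasFDerivAt (fun y => ∑' k, w k y)
        (∑' k, fderiv ℝ (w k) x) x := fun x hx =>
      hasFDerivAt_tsum_of_isPreconnected (hC.mul_left (n : ℝ)) isOpen_ball
        (convex_ball x₀ r).isPreconnected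
        (fun k y hy => ((h k).1 y hy).2.hasFDerivAt) hbd hx₀ (hs x₀ hx₀) hx
    refine ⟨hs, fun x hx => ⟨tsum_of_norm_bounded hC.hasSum (fun k => ((h k).1 x hx).1),
      (hder x hx).differentiableAt⟩, fun i => ?_⟩
    refine hb_congr isOpen_ball j _ _ (fun x hx => ?_)
      (ih (fun k x => fderiv ℝ (w k) x (bv i)) (fun k => (h k).2 i)).2
    rw [(hder x hx).fderiv]
    have hsum : Summable (fun k => fderiv ℝ (w k) x) :=
      Summable.of_norm_bounded (hC.mul_left (n : ℝ)) (fun k => hbd k x hx)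
    exact ((ContinuousLinearMap.apply ℝ F (bv i)).map_tsum hsum).symm

end Pool.Agent.H51.RG
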