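import Pool.Agent.H90.RG.Targets

/-! F_CNM: the coordinates `(t, y)`, measure. -/

set_option autoImplicit false

namespace Pool.Agent.H51.RG.CNM

open MeasureTheory Metric Set Filter Topology Pool.Agent.H87.SN Pool.Agent.H90.RG
open scoped ContDiff RealInnerProductSpace ENNReal

theorem pf_CNM (h : T_CNA) : T_CNM := by
  intro n
  obtain ⟨h1, h2, h3, h4, h5, h6⟩ := h n
  constructor
  · have e1 : MeasurePreserving (Prod.map (id : ℝ → ℝ) (WithLp.ofLp : E n → (Fin n → ℝ)))
        (volume.prod volume) (volume.prod volume) :=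
      (MeasurePreserving.id volume).prod (PiLp.volume_preserving_ofLp (Fin n))
    have e2 := (volume_preserving_piFinSuccAbove (fun _ : Fin (n + 1) => ℝ) 0).symm
    have e3 := PiLp.volume_preserving_toLp (Fin (n + 1))
    have e4 := (e3.comp e2).comp e1
    have e5 : (fun p : ℝ × E n => cn p.1 p.2) =
        (WithLp.toLp 2 ∘ (MeasurableEquiv.piFinSuccAbove (fun _ : Fin (n + 1) => ℝ) 0).symm) ∘
          Prod.map (id : ℝ → ℝ) (WithLp.ofLp : E n → (Fin n → ℝ)) := by
      funext p
      simp only [cn, Function.comp_apply]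
      congr 1
      funext i
      refine Fin.cases ?_ (fun j => ?_) i
      · rfl
      · rfl
    rw [e5]
    exact e4
  · have hc : Continuous (fun x : E (n + 1) => ((x 0, tl x) : ℝ × E n)) := by
      refine Continuous.prodMk ?_ tl.continuous
      fun_prop
    let φ : (ℝ × E n) ≃ₜ E (n + 1) :=
      { toFun := fun p => cn p.1 p.2
        invFun := fun x => (x 0, tl x)
        left_inv := fun p => Prod.ext (h1 p.1 p.2).2.2.1 (h1 p.1 p.2).2.1
        right_inv := fun x => (h2 x).1
        continuous_toFun := h6
        continuous_invFun := hc }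
    exact φ.measurableEmbedding

end Pool.Agent.H51.RG.CNM
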