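import Pool.Agent.H51.RG.Defs

/-!
# Edmonds' theorem: the induction step at a tight odd cut
-/

set_option autoImplicit false
set_option linter.unusedSectionVars false

namespace Pool.Agent.H51.RG

open Pool.Agent.H43.F5 Finset

variable {V E : Type} [DecidableEq V] [DecidableEq E] {G : Gr V E} {w : E → ℚ}
variable {X : Finset V} {z : V}

lemma cr_up (hA : ∀ e ∈ G.es, G.a e ∈ G.vs) (hB : ∀ e ∈ G.es, G.b e ∈ G.vs) (Z : Finset V)
    {e : E} (he : e ∈ G.es) : Cr G (up G X z Z) e ↔ Cr (con G X z) Z e := by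
  unfold Cr up con
  simp only [Finset.mem_filter, hA e he, hB e he, true_and]

lemma cut_up' (hA : ∀ e ∈ G.es, G.a e ∈ G.vs) (hB : ∀ e ∈ G.es, G.b e ∈ G.vs) (Z : Finset V) :
    cut G G.es (up G X z Z) = cut (con G X z) (con G X z).es Z := by
  ext e
  simp only [mem_cut, mem_con_es]
  constructor
  · rintro ⟨h1, h2⟩
    have h3 := (cr_up hA hB Z h1).1 h2
    exact ⟨⟨h1, con_Cr_mem h3⟩, h3⟩
  · rintro ⟨⟨h1, _⟩, h2⟩
    exact ⟨h1, (cr_up hA hB Z h1).2 h2⟩

lemma up_odd (hX : X ⊆ G.vs) (hz : z ∉ X) (hzv : z ∈ G.vs) (hY : Odd (G.vs \ X).card)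
    {Z : Finset V} (hZ : Z ⊆ insert z X) (ho : Odd Z.card) : Odd (up G X z Z).card := by
  by_cases hzZ : z ∈ Z
  · have h1 : up G X z Z = Z.erase z ∪ (G.vs \ X) := by
      ext v
      simp only [up, mem_filter, mem_union, mem_erase, mem_sdiff]
      constructor
      · rintro ⟨h1, h2⟩
        by_cases hv : v ∈ X
        · rw [if_pos hv] at h2
          exact Or.inl ⟨fun h => hz (h ▸ hv), h2⟩
        · exact Or.inr ⟨h1, hv⟩
      · rintro (⟨h1, h2⟩ | ⟨h1, h2⟩)
        · have hv : v ∈ X := by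
            rcases mem_insert.1 (hZ h2) with h | h
            · exact absurd h h1
            · exact h
          rw [if_pos hv]
          exact ⟨hX hv, h2⟩
        · rw [if_neg h2]
          exact ⟨h1, hzZ⟩
    have hdis : Disjoint (Z.erase z) (G.vs \ X) := by
      rw [Finset.disjoint_left]
      intro v h2 h3
      rw [mem_erase] at h2
      rw [mem_sdiff] at h3
      rcases mem_insert.1 (hZ h2.2) with h | h
      · exact h2.1 h
      · exact h3.2 h
    rw [h1, card_union_of_disjoint hdis, card_erase_of_mem hzZ]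
    rw [Nat.odd_iff] at *
    have : 1 ≤ Z.card := card_pos.2 ⟨z, hzZ⟩
    omega
  · have h1 : up G X z Z = Z := by
      ext v
      simp only [up, mem_filter]
      constructor
      · rintro ⟨h1, h2⟩
        by_cases hv : v ∈ X
        · rwa [if_pos hv] at h2
        · rw [if_neg hv] at h2
          exact absurd h2 hzZ
      · intro h2
        have hv : v ∈ X := by
          rcases mem_insert.1 (hZ h2) with h | h
          · exact absurd (h ▸ h2) hzZ
          · exact h
        rw [if_pos hv]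
        exact ⟨hX hv, h2⟩
    rw [h1]
    exact ho

lemma wt_con (h : Wt G w) (hX : X ⊆ G.vs) (hz : z ∉ X) (hzv : z ∈ G.vs)
    (hY : Odd (G.vs \ X).card) (ht : ∑ e ∈ cut G G.es X, w e = 1) : Wt (con G X z) w where
  ha := by
    intro e he
    show (if G.a e ∈ X then G.a e else z) ∈ insert z X
    split_ifs with h1
    · exact mem_insert_of_mem h1
    · exact mem_insert_self _ _
  hb := by
    intro e he
    show (if G.b e ∈ X then G.b e else z) ∈ insert z X
    split_ifs with h1
    · exact mem_insert_of_mem h1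
    · exact mem_insert_self _ _
  ne := by
    intro e he
    rw [mem_con_es] at he
    show (if G.a e ∈ X then G.a e else z) ≠ (if G.b e ∈ X then G.b e else z)
    by_cases h1 : G.a e ∈ X <;> by_cases h2 : G.b e ∈ X
    · rw [if_pos h1, if_pos h2]; exact h.ne e he.1
    · rw [if_pos h1, if_neg h2]; exact fun h3 => hz (h3 ▸ h1)
    · rw [if_neg h1, if_pos h2]; exact fun h3 => hz (h3 ▸ h2)
    · rcases he.2 with h3 | h3
      · exact absurd h3 h1
      · exact absurd h3 h2
  pos := fun e he => h.pos e (mem_con_es.1 he).1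
  deg := by
    intro v hv
    rcases mem_insert.1 hv with rfl | hv
    · have h1 : star (con G X v) (con G X v).es v = cut G G.es X := star_con_z hz (A := G.es)
      rw [h1, ht]
    · have h1 : star (con G X z) (con G X z).es v = star G G.es v :=
        star_con_of_mem hz (A := G.es) hv
      rw [h1]
      exact h.deg v (hX hv)
  odd := by
    intro Z hZ ho
    rw [← cut_up' h.ha h.hb Z]
    exact h.odd _ up_sub (up_odd hX hz hzv hY hZ ho)

lemma rooted (h : Wt G w) (hc : Cheap G w) {f : E} (hf : f ∈ G.es) : ∃ M, PM G M ∧ f ∈ M := by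
  obtain ⟨M, hM, h1⟩ := hc (fun e => if e = f then -1 else 0)
  refine ⟨M, hM, ?_⟩
  by_contra hfM
  have h2 : ∑ e ∈ M, (if e = f then (-1 : ℚ) else 0) = 0 := by
    apply sum_eq_zero
    intro e he
    rw [if_neg]
    rintro rfl
    exact hfM he
  have h3 : ∑ e ∈ G.es, (if e = f then (-1 : ℚ) else 0) * w e = - w f := by
    rw [sum_eq_single f]
    · rw [if_pos rfl]; ring
    · intro e _ hne
      rw [if_neg hne]; ring
    · intro hn
      exact absurd hf hn
  rw [h2, h3] at h1
  have := h.pos f hf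
  linarith

/-- a perfect matching of the contracted graph has exactly one edge in the cut -/
lemma pm_con_cut (hz : z ∉ X) {M : Finset E} (hM : PM (con G X z) M) :
    ∃ f, M ∩ cut G G.es X = {f} := by
  have h1 := hM.deg z (mem_insert_self _ _)
  have h2 : star (con G X z) M z = M ∩ cut G G.es X := by
    have h3 : star (con G X z) (con G X z).es z = cut G G.es X := star_con_z hz (A := G.es)
    rw [← h3]
    ext e
    simp only [mem_star, mem_inter]
    constructor
    · rintro ⟨h4, h5⟩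
      exact ⟨h4, hM.sub h4, h5⟩
    · rintro ⟨h4, _, h5⟩
      exact ⟨h4, h5⟩
  rw [h2] at h1
  exact card_eq_one.1 h1

lemma cut_sub_con : cut G G.es X ⊆ (con G X z).es := by
  intro e he
  rw [mem_cut] at he
  rw [mem_con_es]
  refine ⟨he.1, ?_⟩
  by_contra hcon
  push Not at hcon
  apply he.2
  simp [hcon.1, hcon.2]

lemma side (h : Wt (con G X z) w) (hz : z ∉ X) (hc : Cheap (con G X z) w) (c : E → ℚ) :
    ∃ g : E → Finset E, (∀ f ∈ cut G G.es X, PM (con G X z) (g f) ∧ f ∈ g f) ∧
      ∑ f ∈ cut G G.es X, w f * ∑ e ∈ g f \ cut G G.es X, c e ≤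
        ∑ e ∈ (con G X z).es \ cut G G.es X, c e * w e := by
  classical
  set C := cut G G.es X with hC
  have hCs : C ⊆ (con G X z).es := cut_sub_con
  have hex : ∀ f, ∃ M, f ∈ C → (PM (con G X z) M ∧ f ∈ M ∧
      ∀ M', PM (con G X z) M' → f ∈ M' → ∑ e ∈ M \ C, c e ≤ ∑ e ∈ M' \ C, c e) := by
    intro f
    by_cases hf : f ∈ C
    · obtain ⟨M0, hM0, hf0⟩ := rooted h hc (hCs hf)
      let P := ((con G X z).es.powerset).filter (fun M => PM (con G X z) M ∧ f ∈ M)
      have hne : P.Nonempty := ⟨M0, mem_filter.2 ⟨mem_powerset.2 hM0.sub, hM0, hf0⟩⟩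
      obtain ⟨M, hM, hmin⟩ := exists_min_image P (fun M => ∑ e ∈ M \ C, c e) hne
      refine ⟨M, fun _ => ⟨(mem_filter.1 hM).2.1, (mem_filter.1 hM).2.2, fun M' h1 h2 => ?_⟩⟩
      exact hmin M' (mem_filter.2 ⟨mem_powerset.2 h1.sub, h1, h2⟩)
    · exact ⟨∅, fun h1 => absurd h1 hf⟩
  choose g hg using hex
  refine ⟨g, fun f hf => ⟨(hg f hf).1, (hg f hf).2.1⟩, ?_⟩
  obtain ⟨M', hM', hle⟩ := hc (fun e => if e ∈ C then - ∑ e' ∈ g e \ C, c e' else c e)
  obtain ⟨f0, hf0⟩ := pm_con_cut hz hM'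
  rw [← hC] at hf0
  have hf0C : f0 ∈ C := by
    have : f0 ∈ M' ∩ C := by rw [hf0]; exact mem_singleton_self _
    exact (mem_inter.1 this).2
  have hf0M : f0 ∈ M' := by
    have : f0 ∈ M' ∩ C := by rw [hf0]; exact mem_singleton_self _
    exact (mem_inter.1 this).1
  have e1 : ∑ e ∈ M', (if e ∈ C then - ∑ e' ∈ g e \ C, c e' else c e) =
      ∑ e ∈ M' \ C, c e - ∑ e' ∈ g f0 \ C, c e' := by
    rw [← sum_sdiff (inter_subset_left : M' ∩ C ⊆ M'), hf0, sum_singleton, if_pos hf0C]
    have h2 : M' \ {f0} = M' \ C := by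
      rw [← hf0]
      ext e
      simp only [mem_sdiff, mem_inter]
      tauto
    rw [h2, sum_congr rfl (g := c)]
    · ring
    · intro e he
      rw [if_neg (mem_sdiff.1 he).2]
  have e2 : ∑ e ∈ (con G X z).es, (if e ∈ C then - ∑ e' ∈ g e \ C, c e' else c e) * w e =
      ∑ e ∈ (con G X z).es \ C, c e * w e - ∑ f ∈ C, w f * ∑ e ∈ g f \ C, c e := by
    rw [← sum_sdiff hCs]
    have h2 : ∑ e ∈ C, (if e ∈ C then - ∑ e' ∈ g e \ C, c e' else c e) * w e =
        - ∑ f ∈ C, w f * ∑ e ∈ g f \ C, c e := by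
      rw [← sum_neg_distrib]
      apply sum_congr rfl
      intro e he
      rw [if_pos he]; ring
    rw [h2, sum_congr rfl (g := fun e => c e * w e)]
    · ring
    · intro e he
      rw [if_neg (mem_sdiff.1 he).2]
  have e3 := (hg f0 hf0C).2.2 M' hM' hf0M
  linarith

theorem pf_TIGHT : T_TIGHT := by
  intro V E _ _ G w h IH X hX ho h2 h3 ht c
  classical
  set Y := G.vs \ X with hY
  have hYs : Y ⊆ G.vs := sdiff_subset
  have hYc : G.vs \ Y = X := by rw [hY, sdiff_sdiff_right_self]; exact inf_eq_right.2 hX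
  have hcardXY : Y.card + X.card = G.vs.card := card_sdiff_add_card_eq_card hX
  -- the number of vertices is even
  have heven : Even G.vs.card := by
    by_contra hodd
    rw [Nat.not_even_iff_odd] at hodd
    have h4 := h.odd G.vs (le_refl _) hodd
    have h5 : cut G G.es G.vs = ∅ := by
      ext e
      simp only [mem_cut, Cr, notMem_empty, iff_false, not_and, not_not]
      intro he
      simp [h.ha e he, h.hb e he]
    rw [h5, sum_empty] at h4
    linarith
  have hYo : Odd Y.card := by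
    rw [Nat.odd_iff] at *
    rw [Nat.even_iff] at heven
    omega
  have hcutY : cut G G.es Y = cut G G.es X := by
    ext e
    simp only [mem_cut]
    have h5 : e ∈ G.es → (Cr G Y e ↔ Cr G X e) := by
      intro he
      unfold Cr
      simp only [hY, mem_sdiff, h.ha e he, h.hb e he, true_and]
      tauto
    constructor
    · rintro ⟨h1, h6⟩; exact ⟨h1, (h5 h1).1 h6⟩
    · rintro ⟨h1, h6⟩; exact ⟨h1, (h5 h1).2 h6⟩
  obtain ⟨z, hz⟩ : Y.Nonempty := card_pos.1 (by omega)
  obtain ⟨y, hy⟩ : X.Nonempty := card_pos.1 (by omega)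
  have hzX : z ∉ X := (mem_sdiff.1 hz).2
  have hyY : y ∉ Y := fun h4 => (mem_sdiff.1 h4).2 hy
  have w1 : Wt (con G X z) w := wt_con h hX hzX (hYs hz) hYo ht
  have w2 : Wt (con G Y y) w := wt_con h hYs hyY (hX hy) (by rw [hYc]; exact ho)
    (by rw [hcutY]; exact ht)
  have m1 : (con G X z).vs.card + (con G X z).es.card < G.vs.card + G.es.card := by
    have h4 : (con G X z).vs.card ≤ X.card + 1 := card_insert_le _ _
    have h5 : (con G X z).es.card ≤ G.es.card := card_le_card (filter_subset _ _)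
    omega
  have m2 : (con G Y y).vs.card + (con G Y y).es.card < G.vs.card + G.es.card := by
    have h4 : (con G Y y).vs.card ≤ Y.card + 1 := card_insert_le _ _
    have h5 : (con G Y y).es.card ≤ G.es.card := card_le_card (filter_subset _ _)
    omega
  obtain ⟨g1, hg1, s1⟩ := side w1 hzX (IH _ m1 w1) c
  obtain ⟨g2, hg2, s2⟩ := side w2 hyY (IH _ m2 w2) c
  rw [hcutY] at hg2 s2
  set C := cut G G.es X with hC
  have hCs1 : C ⊆ (con G X z).es := cut_sub_con
  have hCs2 : C ⊆ (con G Y y).es := by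
    have := cut_sub_con (G := G) (X := Y) (z := y)
    rwa [hcutY] at this
  have hboth : ∀ e, e ∈ (con G X z).es → e ∈ (con G Y y).es → e ∈ C := by
    intro e h4 h5
    rw [mem_con_es] at h4 h5
    rw [hC, mem_cut]
    refine ⟨h4.1, ?_⟩
    unfold Cr
    have h6 := h.ha e h4.1
    have h7 := h.hb e h4.1
    have h8 := h4.2
    have h9 := h5.2
    simp only [hY, mem_sdiff, h6, h7, true_and] at h9
    tauto
  have hall : ∀ e ∈ G.es, e ∈ (con G X z).es ∨ e ∈ (con G Y y).es := by
    intro e he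
    rw [mem_con_es, mem_con_es]
    by_cases h4 : G.a e ∈ X
    · exact Or.inl ⟨he, Or.inl h4⟩
    · exact Or.inr ⟨he, Or.inl (mem_sdiff.2 ⟨h.ha e he, h4⟩)⟩
  -- the total cost
  have htot : ∑ e ∈ G.es, c e * w e = ∑ e ∈ (con G X z).es \ C, c e * w e +
      ∑ e ∈ (con G Y y).es \ C, c e * w e + ∑ f ∈ C, c f * w f := by
    rw [← sum_union, ← sum_union]
    · apply sum_congr _ (fun _ _ => rfl)
      ext e
      simp only [mem_union, mem_sdiff]
      constructor
      · intro he
        by_cases heC : e ∈ C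
        · exact Or.inr heC
        · rcases hall e he with h4 | h4
          · exact Or.inl (Or.inl ⟨h4, heC⟩)
          · exact Or.inl (Or.inr ⟨h4, heC⟩)
      · rintro ((h4 | h4) | h4)
        · exact (mem_con_es.1 h4.1).1
        · exact (mem_con_es.1 h4.1).1
        · exact (mem_cut.1 h4).1
    · rw [Finset.disjoint_left]
      intro e h4 h5
      simp only [mem_union, mem_sdiff] at h4
      tauto
    · rw [Finset.disjoint_left]
      intro e h4 h5
      rw [mem_sdiff] at h4 h5
      exact h4.2 (hboth e h4.1 h5.1)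
  have hex : ∃ f ∈ C, ∑ e ∈ g1 f \ C, c e + ∑ e ∈ g2 f \ C, c e + c f ≤
      ∑ e ∈ G.es, c e * w e := by
    by_contra hcon
    push Not at hcon
    have hne : C.Nonempty := by
      by_contra h4
      rw [not_nonempty_iff_eq_empty] at h4
      rw [h4, sum_empty] at ht
      exact zero_ne_one ht
    have h4 : ∑ f ∈ C, w f * (∑ e ∈ G.es, c e * w e) <
        ∑ f ∈ C, w f * (∑ e ∈ g1 f \ C, c e + ∑ e ∈ g2 f \ C, c e + c f) := by
      apply sum_lt_sum_of_nonempty hne
      intro f hf
      exact mul_lt_mul_of_pos_left (hcon f hf) (h.pos f (mem_cut.1 hf).1)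
    rw [← sum_mul, ht, one_mul] at h4
    have h5 : ∑ f ∈ C, w f * (∑ e ∈ g1 f \ C, c e + ∑ e ∈ g2 f \ C, c e + c f) =
        ∑ f ∈ C, w f * ∑ e ∈ g1 f \ C, c e + ∑ f ∈ C, w f * ∑ e ∈ g2 f \ C, c e +
          ∑ f ∈ C, c f * w f := by
      rw [← sum_add_distrib, ← sum_add_distrib]
      apply sum_congr rfl
      intro f _
      ring
    rw [h5] at h4
    linarith
  obtain ⟨f, hf, hle⟩ := hex
  obtain ⟨p1, f1⟩ := hg1 f hf
  obtain ⟨p2, f2⟩ := hg2 f hf
  have i1 : ∀ e, e ∈ g1 f → e ∈ C → e = f := by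
    obtain ⟨f', hf'⟩ := pm_con_cut hzX p1
    intro e h4 h5
    have h6 : e ∈ g1 f ∩ cut G G.es X := mem_inter.2 ⟨h4, h5⟩
    have h7 : f ∈ g1 f ∩ cut G G.es X := mem_inter.2 ⟨f1, hf⟩
    rw [hf', mem_singleton] at h6 h7
    rw [h6, h7]
  have i2 : ∀ e, e ∈ g2 f → e ∈ C → e = f := by
    obtain ⟨f', hf'⟩ := pm_con_cut hyY p2
    rw [hcutY] at hf'
    intro e h4 h5
    have h6 : e ∈ g2 f ∩ cut G G.es X := mem_inter.2 ⟨h4, h5⟩
    have h7 : f ∈ g2 f ∩ cut G G.es X := mem_inter.2 ⟨f2, hf⟩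
    rw [hf', mem_singleton] at h6 h7
    rw [h6, h7]
  have r1 : (g1 f ∪ g2 f).filter (fun e => G.a e ∈ X ∨ G.b e ∈ X) = g1 f := by
    ext e
    simp only [mem_filter, mem_union]
    constructor
    · rintro ⟨h4 | h4, h5⟩
      · exact h4
      · have h6 : e ∈ (con G X z).es :=
          mem_con_es.2 ⟨(mem_con_es.1 (p2.sub h4)).1, h5⟩
        rw [i2 e h4 (hboth e h6 (p2.sub h4))]
        exact f1
    · intro h4
      exact ⟨Or.inl h4, (mem_con_es.1 (p1.sub h4)).2⟩
  have r2 : (g1 f ∪ g2 f).filter (fun e => G.a e ∈ Y ∨ G.b e ∈ Y) = g2 f := by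
    ext e
    simp only [mem_filter, mem_union]
    constructor
    · rintro ⟨h4 | h4, h5⟩
      · have h6 : e ∈ (con G Y y).es :=
          mem_con_es.2 ⟨(mem_con_es.1 (p1.sub h4)).1, h5⟩
        rw [i1 e h4 (hboth e (p1.sub h4) h6)]
        exact f2
      · exact h4
    · intro h4
      exact ⟨Or.inr h4, (mem_con_es.1 (p2.sub h4)).2⟩
  refine ⟨g1 f ∪ g2 f, ⟨?_, ?_⟩, ?_⟩
  · intro e he
    rcases mem_union.1 he with h4 | h4
    · exact (mem_con_es.1 (p1.sub h4)).1
    · exact (mem_con_es.1 (p2.sub h4)).1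
  · intro v hv
    by_cases hvX : v ∈ X
    · have h4 := star_con_of_mem (G := G) hzX (A := g1 f ∪ g2 f) hvX
      rw [r1] at h4
      rw [← h4]
      exact p1.deg v (mem_insert_of_mem hvX)
    · have hvY : v ∈ Y := mem_sdiff.2 ⟨hv, hvX⟩
      have h4 := star_con_of_mem (G := G) hyY (A := g1 f ∪ g2 f) hvY
      rw [r2] at h4
      rw [← h4]
      exact p2.deg v (mem_insert_of_mem hvY)
  · have h4 : g1 f ∪ g2 f = ((g1 f \ C) ∪ (g2 f \ C)) ∪ {f} := by
      ext e
      simp only [mem_union, mem_sdiff, mem_singleton]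
      constructor
      · rintro (h5 | h5)
        · by_cases heC : e ∈ C
          · exact Or.inr (i1 e h5 heC)
          · exact Or.inl (Or.inl ⟨h5, heC⟩)
        · by_cases heC : e ∈ C
          · exact Or.inr (i2 e h5 heC)
          · exact Or.inl (Or.inr ⟨h5, heC⟩)
      · rintro ((h5 | h5) | rfl)
        · exact Or.inl h5.1
        · exact Or.inr h5.1
        · exact Or.inl f1
    rw [h4, sum_union, sum_union, sum_singleton]
    · exact hle
    · rw [Finset.disjoint_left]
      intro e h5 h6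
      rw [mem_sdiff] at h5 h6
      exact h5.2 (hboth e (p1.sub h5.1) (p2.sub h6.1))
    · rw [Finset.disjoint_left]
      intro e h5 h6
      rw [mem_singleton] at h6
      subst h6
      simp only [mem_union, mem_sdiff] at h5
      tauto

end Pool.Agent.H51.RG
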