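import Pool.Agent.H51.RG.App
import Pool.Agent.H51.RG.Tight
import Pool.Agent.H49.RG.EDM
import Pool.Agent.H41.RG.DIR
import Pool.Agent.H43.RG.TUT

/-!
# F_5-flows of cubic graphs with few odd matching cuts: assembly
-/

set_option autoImplicit false

namespace Pool.Agent.H51.RG

/-- Edmonds' theorem -/
theorem edm : T_EDM :=
  Pool.Agent.H49.RG.pf_EDM Pool.Agent.H43.RG.pf_TUT pf_TIGHT Pool.Agent.H41.RG.pf_DIR

open Finset in
theorem fin (V E : Type) [Fintype V] [DecidableEq V] [Fintype E]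
    [DecidableEq E] (h t : E → V) (hne : ∀ e, h e ≠ t e)
    (hdeg : ∀ v, (univ.filter (fun e => h e = v)).card + (univ.filter (fun e => t e = v)).card = 3)
    (hbr : ∀ S : Finset V,
      (univ.filter (fun e => (h e ∈ S ∧ t e ∉ S) ∨ (h e ∉ S ∧ t e ∈ S))).card ≠ 1)
    (k : ℕ) (hk5 : 5 ≤ k)
    (hcut : ∀ S : Finset V,
      Odd (univ.filter (fun e => (h e ∈ S ∧ t e ∉ S) ∨ (h e ∉ S ∧ t e ∈ S))).card →
      (∀ v, (univ.filter (fun e => ((h e ∈ S ∧ t e ∉ S) ∨ (h e ∉ S ∧ t e ∈ S)) ∧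
        (h e = v ∨ t e = v))).card ≤ 1) →
      (univ.filter (fun e => (h e ∈ S ∧ t e ∉ S) ∨ (h e ∉ S ∧ t e ∈ S))).card = 3 ∨
      (univ.filter (fun e => (h e ∈ S ∧ t e ∉ S) ∨ (h e ∉ S ∧ t e ∈ S))).card = k ∨
      (k < (univ.filter (fun e => (h e ∈ S ∧ t e ∉ S) ∨ (h e ∉ S ∧ t e ∈ S))).card ∧
        Fintype.card V < 2 * k *
          (univ.filter (fun e => (h e ∈ S ∧ t e ∉ S) ∨ (h e ∉ S ∧ t e ∈ S))).card)) :
    ∃ f : E → (Fin 3 → ZMod 2),
        (∀ e, f e ≠ 0) ∧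
        (∀ v, (∑ e ∈ univ.filter (fun e => h e = v), f e)
              + (∑ e ∈ univ.filter (fun e => t e = v), f e) = 0) ∧
        (univ.image
          (fun v => (univ.filter (fun e => h e = v ∨ t e = v)).image f)).card ≤ 5 :=
  flow_small edm V E h t hne hdeg hbr k hk5 hcut

end Pool.Agent.H51.RG
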