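import Pool.Agent.H51.RG.Defs
import Pool.Agent.H43.F5.Flow

/-!
# F_5-flows: two perfect matchings without a small odd cut in the intersection
-/

set_option autoImplicit false
set_option linter.unusedSectionVars false

namespace Pool.Agent.H51.RG

open Pool.Agent.H43.F5 Finset

variable {V E : Type} [DecidableEq V] [DecidableEq E] {G : Gr V E} {w : E → ℚ}

/-- a perfect matching of small cost which meets all cuts of a list of tight odd cuts once -/
lemma exact_cuts (hE : T_EDM) (hG : Ok G) (hw : Wt G w) (T : Finset (Finset V))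
    (hT : ∀ X ∈ T, X ⊆ G.vs ∧ Odd X.card ∧ ∑ e ∈ cut G G.es X, w e = 1) (d : E → ℚ)
    (hd : ∀ e ∈ G.es, 0 ≤ d e) :
    ∃ M, PM G M ∧ (∀ X ∈ T, (cut G M X).card = 1) ∧
      ∑ e ∈ M, d e ≤ ∑ e ∈ G.es, d e * w e := by
  classical
  set D := ∑ e ∈ G.es, d e * w e with hD
  obtain ⟨M, hM, hle⟩ := hE V E G w hw
    (fun e => d e + (D + 1) * ∑ X ∈ T, (if Cr G X e then (1 : ℚ) else 0))
  have e1 : ∀ A : Finset E, ∀ u : E → ℚ, ∑ e ∈ A, (∑ X ∈ T, (if Cr G X e then (1 : ℚ) else 0)) * u e =
      ∑ X ∈ T, ∑ e ∈ cut G A X, u e := by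
    intro A u
    calc ∑ e ∈ A, (∑ X ∈ T, (if Cr G X e then (1 : ℚ) else 0)) * u e
        = ∑ e ∈ A, ∑ X ∈ T, (if Cr G X e then u e else 0) := by
          apply sum_congr rfl
          intro e _
          rw [sum_mul]
          apply sum_congr rfl
          intro X _
          split_ifs <;> simp
      _ = ∑ X ∈ T, ∑ e ∈ A, (if Cr G X e then u e else 0) := sum_comm
      _ = _ := by
          apply sum_congr rfl
          intro X _
          unfold cut
          rw [sum_filter]
  have e2 : ∑ e ∈ M, (d e + (D + 1) * ∑ X ∈ T, (if Cr G X e then (1 : ℚ) else 0)) =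
      ∑ e ∈ M, d e + (D + 1) * ∑ X ∈ T, ((cut G M X).card : ℚ) := by
    rw [sum_add_distrib, ← mul_sum]
    congr 2
    have := e1 M (fun _ => 1)
    simp only [mul_one, sum_const, nsmul_eq_mul] at this
    exact this
  have e3 : ∑ e ∈ G.es, (d e + (D + 1) * ∑ X ∈ T, (if Cr G X e then (1 : ℚ) else 0)) * w e =
      D + (D + 1) * T.card := by
    have h1 : ∀ e ∈ G.es, (d e + (D + 1) * ∑ X ∈ T, (if Cr G X e then (1 : ℚ) else 0)) * w e =
        d e * w e + (D + 1) * ((∑ X ∈ T, (if Cr G X e then (1 : ℚ) else 0)) * w e) := by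
      intro e _
      ring
    rw [sum_congr rfl h1, sum_add_distrib, ← mul_sum, e1 G.es w, ← hD]
    congr 2
    rw [sum_congr rfl (fun X hX => (hT X hX).2.2)]
    simp
  rw [e2, e3] at hle
  have hD0 : 0 ≤ D := sum_nonneg (fun e he => mul_nonneg (hd e he) (hw.pos e he).le)
  have hM0 : 0 ≤ ∑ e ∈ M, d e := sum_nonneg (fun e he => hd e (hM.sub he))
  have hone : ∀ X ∈ T, 1 ≤ (cut G M X).card := by
    intro X hX
    have h1 := cutN_parity hG hM (hT X hX).1
    have h2 := (hT X hX).2.1
    rw [Nat.odd_iff] at h2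
    omega
  have hge : T.card ≤ ∑ X ∈ T, (cut G M X).card := by
    calc T.card = ∑ X ∈ T, 1 := by simp
      _ ≤ _ := sum_le_sum hone
  have hle2 : ∑ X ∈ T, (cut G M X).card ≤ T.card := by
    by_contra hcon
    push Not at hcon
    have h1 : (T.card : ℚ) + 1 ≤ ∑ X ∈ T, ((cut G M X).card : ℚ) := by exact_mod_cast hcon
    have h2 : (D + 1) * ((T.card : ℚ) + 1) ≤ (D + 1) * ∑ X ∈ T, ((cut G M X).card : ℚ) :=
      mul_le_mul_of_nonneg_left h1 (by linarith)
    linarith
  have heq : ∑ X ∈ T, (cut G M X).card = T.card := le_antisymm hle2 hge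
  refine ⟨M, hM, ?_, ?_⟩
  · intro X hX
    have h1 : ∑ X ∈ T, 1 = ∑ X ∈ T, (cut G M X).card := by rw [heq]; simp
    exact ((sum_eq_sum_iff_of_le hone).1 h1 X hX).symm
  · have h1 : ∑ X ∈ T, ((cut G M X).card : ℚ) = T.card := by exact_mod_cast heq
    rw [h1] at hle
    linarith

/-- a perfect matching has half as many edges as there are vertices -/
lemma two_card (hG : Ok G) {M : Finset E} (hM : PM G M) : 2 * M.card = G.vs.card := by
  have h1 : ∀ v, (star G M v).card = ∑ e ∈ M, ((if G.a e = v then 1 else 0) +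
      (if G.b e = v then 1 else 0)) := by
    intro v
    rw [Pool.Agent.H43.F5.star, Finset.card_filter]
    apply Finset.sum_congr rfl
    intro e he
    have := hG.ne e (hM.sub he)
    by_cases h : G.a e = v
    · have h' : ¬ G.b e = v := fun h2 => this (h.trans h2.symm)
      simp [h, h']
    · simp [h]
  have h2 : ∑ v ∈ G.vs, (star G M v).card = ∑ e ∈ M, 2 := by
    rw [Finset.sum_congr rfl (fun v _ => h1 v), Finset.sum_comm]
    apply Finset.sum_congr rfl
    intro e he
    rw [Finset.sum_add_distrib]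
    simp [hG.ha e (hM.sub he), hG.hb e (hM.sub he)]
  rw [Finset.sum_congr rfl (fun v hv => hM.deg v hv)] at h2
  simp at h2
  omega

/-- the boundary of an odd set has at least three edges -/
lemma odd_cut (hG : Ok G) {X : Finset V} (hX : X ⊆ G.vs) (ho : Odd X.card) :
    Odd (cut G G.es X).card ∧ 3 ≤ (cut G G.es X).card := by
  have h1 := cut_parity hG hX
  have h2 := hG.br X hX
  rw [Nat.odd_iff] at *
  omega

theorem pair (hE : T_EDM) (hG : Ok G) (k : ℕ) (hk5 : 5 ≤ k)
    (hs : ∀ X ⊆ G.vs, Odd (cut G G.es X).card → (∀ v, (star G (cut G G.es X) v).card ≤ 1) →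
      (cut G G.es X).card = 3 ∨ (cut G G.es X).card = k ∨
        (k < (cut G G.es X).card ∧ G.vs.card < 2 * k * (cut G G.es X).card)) :
    ∃ M N, PM G M ∧ PM G N ∧ Good G (G.es \ M) N := by
  classical
  -- first matching
  have w1 : Wt G (fun _ => (1 / 3 : ℚ)) := by
    refine ⟨hG.ha, hG.hb, hG.ne, fun _ _ => by norm_num, ?_, ?_⟩
    · intro v hv
      rw [sum_const, hG.deg v hv]; norm_num
    · intro X hX ho
      have h1 := (odd_cut hG hX ho).2
      rw [sum_const, nsmul_eq_mul]
      have : (3 : ℚ) ≤ (cut G G.es X).card := by exact_mod_cast h1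
      linarith
  let T3 := G.vs.powerset.filter (fun X => Odd X.card ∧ (cut G G.es X).card = 3)
  obtain ⟨M, hM, hM3, _⟩ := exact_cuts hE hG w1 T3 (by
    intro X hX
    obtain ⟨h1, h2, h3⟩ := mem_filter.1 hX
    refine ⟨mem_powerset.1 h1, h2, ?_⟩
    rw [sum_const, h3]; norm_num) (fun _ => 0) (fun _ _ => le_refl _)
  -- second matching
  have hkq : (5 : ℚ) ≤ k := by exact_mod_cast hk5
  have hk0 : (0 : ℚ) < k := by linarith
  let w2 : E → ℚ := fun e => if e ∈ M then 1 / k else (k - 1) / (2 * k)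
  have hw2 : ∀ A : Finset E, 2 * k * ∑ e ∈ A, w2 e = (k - 1) * A.card - (k - 3) * (A ∩ M).card := by
    intro A
    have h1 : ∀ e ∈ A, 2 * k * w2 e = (k - 1 : ℚ) - (if e ∈ M then (k - 3 : ℚ) else 0) := by
      intro e _
      show 2 * (k : ℚ) * (if e ∈ M then (1 / k : ℚ) else (k - 1) / (2 * k)) = _
      split_ifs
      · field_simp; ring
      · field_simp; ring
    rw [mul_sum, sum_congr rfl h1, sum_sub_distrib, sum_const, ← sum_filter, sum_const,
      filter_mem_eq_inter, nsmul_eq_mul, nsmul_eq_mul]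
    ring
  have hge : ∀ s : ℚ, 2 * k ≤ 2 * k * s → 1 ≤ s := by
    intro s h1
    by_contra h2
    push Not at h2
    nlinarith
  have heq : ∀ s : ℚ, 2 * k * s = 2 * k → s = 1 := by
    intro s h1
    have : (2 * k : ℚ) ≠ 0 := by positivity
    apply mul_left_cancel₀ this
    rw [h1, mul_one]
  have hmatch : ∀ X ⊆ G.vs, (cut G M X).card = (cut G G.es X).card →
      ∀ v, (star G (cut G G.es X) v).card ≤ 1 := by
    intro X _ h1 v
    have h2 : cut G M X = cut G G.es X :=
      eq_of_subset_of_card_le (cut_mono hM.sub X) (by rw [h1])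
    have h3 : star G (cut G G.es X) v ⊆ star G M v := by
      intro e he
      rw [mem_star, ← h2, mem_cut] at he
      exact mem_star.2 ⟨he.1.1, he.2⟩
    by_cases hv : v ∈ G.vs
    · have h4 := card_le_card h3
      rw [hM.deg v hv] at h4
      exact h4
    · have h4 : star G M v = ∅ := by
        rw [eq_empty_iff_forall_notMem]
        intro e he
        rw [mem_star] at he
        rcases he.2 with h5 | h5
        · exact hv (h5 ▸ hG.ha e (hM.sub he.1))
        · exact hv (h5 ▸ hG.hb e (hM.sub he.1))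
      have h5 := card_le_card h3
      rw [h4, card_empty] at h5
      omega
  have hcM : ∀ X, cut G G.es X ∩ M = cut G M X := by
    intro X
    ext e
    simp only [mem_inter, mem_cut]
    constructor
    · rintro ⟨⟨_, h2⟩, h3⟩; exact ⟨h3, h2⟩
    · rintro ⟨h3, h2⟩; exact ⟨⟨hM.sub h3, h2⟩, h3⟩
  have hsM : ∀ v, star G G.es v ∩ M = star G M v := by
    intro v
    ext e
    simp only [mem_inter, mem_star]
    constructor
    · rintro ⟨⟨_, h2⟩, h3⟩; exact ⟨h3, h2⟩
    · rintro ⟨h3, h2⟩; exact ⟨⟨hM.sub h3, h2⟩, h3⟩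
  have W2 : Wt G w2 := by
    refine ⟨hG.ha, hG.hb, hG.ne, ?_, ?_, ?_⟩
    · intro e _
      show 0 < (if e ∈ M then (1 / k : ℚ) else (k - 1) / (2 * k))
      split_ifs
      · positivity
      · apply div_pos <;> linarith
    · intro v hv
      apply heq
      rw [hw2, hsM, hG.deg v hv, hM.deg v hv]; push_cast; ring
    · intro X hX ho
      apply hge
      rw [hw2, hcM]
      obtain ⟨h1, h2⟩ := odd_cut hG hX ho
      have h3 : (cut G M X).card ≤ (cut G G.es X).card := card_le_card (cut_mono hM.sub X)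
      have h4 := cutN_parity hG hM hX
      have h5 : 1 ≤ (cut G M X).card := by
        rw [Nat.odd_iff] at ho
        omega
      rcases (by rw [Nat.odd_iff] at h1 ho; omega :
        (cut G M X).card = (cut G G.es X).card ∨
          (cut G M X).card + 2 ≤ (cut G G.es X).card) with h6 | h6
      · have h7 : k ≤ (cut G G.es X).card := by
          rcases hs X hX h1 (hmatch X hX h6) with h8 | h8 | h8
          · have h9 := hM3 X (mem_filter.2 ⟨mem_powerset.2 hX, ho, h8⟩)
            omega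
          · omega
          · omega
        have h8 : ((cut G M X).card : ℚ) = (cut G G.es X).card := by exact_mod_cast h6
        have h9 : (k : ℚ) ≤ (cut G G.es X).card := by exact_mod_cast h7
        rw [h8]
        linarith
      · have h8 : ((cut G M X).card : ℚ) + 2 ≤ (cut G G.es X).card := by exact_mod_cast h6
        have h9 : (1 : ℚ) ≤ (cut G M X).card := by exact_mod_cast h5
        nlinarith
  let T5 := G.vs.powerset.filter (fun X => Odd X.card ∧ (cut G G.es X).card = k ∧
    (cut G M X).card = k)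
  obtain ⟨N, hN, hN5, hNM⟩ := exact_cuts hE hG W2 T5 (by
    intro X hX
    obtain ⟨h1, h2, h3, h4⟩ := mem_filter.1 hX
    refine ⟨mem_powerset.1 h1, h2, ?_⟩
    apply heq
    rw [hw2, hcM, h3, h4]; ring) (fun e => if e ∈ M then 1 else 0) (by
    intro e _
    show (0 : ℚ) ≤ if e ∈ M then 1 else 0
    split_ifs <;> norm_num)
  have hint : 2 * k * (N ∩ M).card ≤ G.vs.card := by
    have h1 : ∑ e ∈ N, (if e ∈ M then (1 : ℚ) else 0) = (N ∩ M).card := by
      rw [← sum_filter, filter_mem_eq_inter, sum_const, nsmul_eq_mul, mul_one]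
    have h2 : ∑ e ∈ G.es, (if e ∈ M then (1 : ℚ) else 0) * w2 e = 1 / k * M.card := by
      have h3 : ∀ e ∈ G.es, (if e ∈ M then (1 : ℚ) else 0) * w2 e =
          if e ∈ M then 1 / (k : ℚ) else 0 := by
        intro e _
        show (if e ∈ M then (1 : ℚ) else 0) * (if e ∈ M then (1 / k : ℚ) else (k - 1) / (2 * k)) = _
        split_ifs
        · ring
        · ring
      rw [sum_congr rfl h3, ← sum_filter, filter_mem_eq_inter, inter_eq_right.2 hM.sub, sum_const,
        nsmul_eq_mul]
      ring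
    rw [h1, h2] at hNM
    have h4 := two_card hG hM
    have h5 : (2 : ℚ) * M.card = G.vs.card := by exact_mod_cast h4
    have h7 : 2 * (k : ℚ) * (N ∩ M).card ≤ 2 * k * (1 / k * M.card) :=
      mul_le_mul_of_nonneg_left hNM (by positivity)
    have h8 : 2 * (k : ℚ) * (1 / k * M.card) = 2 * M.card := by field_simp
    have h6 : 2 * (k : ℚ) * (N ∩ M).card ≤ G.vs.card := by linarith
    exact_mod_cast h6
  refine ⟨M, N, hM, hN, ?_⟩
  intro X hX hcr
  by_contra hnot
  rw [Nat.not_even_iff_odd] at hnot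
  obtain ⟨h1, h2⟩ := odd_cut hG hX hnot
  have hcr' : ∀ e ∈ cut G G.es X, e ∈ N ∧ e ∈ M := by
    intro e he
    rw [mem_cut] at he
    obtain ⟨h3, h4⟩ := hcr e he.1 he.2
    refine ⟨h3, ?_⟩
    by_contra h5
    exact h4 (mem_sdiff.2 ⟨he.1, h5⟩)
  have e1 : cut G M X = cut G G.es X := by
    apply le_antisymm (cut_mono hM.sub X)
    intro e he
    exact mem_cut.2 ⟨(hcr' e he).2, (mem_cut.1 he).2⟩
  have e2 : cut G N X = cut G G.es X := by
    apply le_antisymm (cut_mono hN.sub X)
    intro e he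
    exact mem_cut.2 ⟨(hcr' e he).1, (mem_cut.1 he).2⟩
  rcases hs X hX h1 (hmatch X hX (by rw [e1])) with h3 | h3 | ⟨h3, h5⟩
  · have h4 := hM3 X (mem_filter.2 ⟨mem_powerset.2 hX, hnot, h3⟩)
    rw [e1, h3] at h4
    omega
  · have h4 := hN5 X (mem_filter.2 ⟨mem_powerset.2 hX, hnot, h3, by rw [e1]; exact h3⟩)
    rw [e2, h3] at h4
    omega
  · have h4 : (cut G G.es X).card ≤ (N ∩ M).card := by
      apply card_le_card
      intro e he
      exact mem_inter.2 (hcr' e he)
    have h6 := Nat.mul_le_mul_left (2 * k) h4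
    omega

/-- The flow. -/
theorem flow_small (hE : T_EDM) (V E : Type) [Fintype V] [DecidableEq V] [Fintype E]
    [DecidableEq E] (h t : E → V) (hne : ∀ e, h e ≠ t e)
    (hdeg : ∀ v, (univ.filter (fun e => h e = v)).card + (univ.filter (fun e => t e = v)).card = 3)
    (hbr : ∀ S : Finset V,
      (univ.filter (fun e => (h e ∈ S ∧ t e ∉ S) ∨ (h e ∉ S ∧ t e ∈ S))).card ≠ 1)
    (k : ℕ) (hk5 : 5 ≤ k)
    (hcut : ∀ S : Finset V,
      Odd (univ.filter (fun e => (h e ∈ S ∧ t e ∉ S) ∨ (h e ∉ S ∧ t e ∈ S))).card →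
      (∀ v, (univ.filter (fun e => ((h e ∈ S ∧ t e ∉ S) ∨ (h e ∉ S ∧ t e ∈ S)) ∧
        (h e = v ∨ t e = v))).card ≤ 1) →
      (univ.filter (fun e => (h e ∈ S ∧ t e ∉ S) ∨ (h e ∉ S ∧ t e ∈ S))).card = 3 ∨
      (univ.filter (fun e => (h e ∈ S ∧ t e ∉ S) ∨ (h e ∉ S ∧ t e ∈ S))).card = k ∨
      (k < (univ.filter (fun e => (h e ∈ S ∧ t e ∉ S) ∨ (h e ∉ S ∧ t e ∈ S))).card ∧
        Fintype.card V < 2 * k *
          (univ.filter (fun e => (h e ∈ S ∧ t e ∉ S) ∨ (h e ∉ S ∧ t e ∈ S))).card)) :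
    ∃ f : E → (Fin 3 → ZMod 2),
        (∀ e, f e ≠ 0) ∧
        (∀ v, (∑ e ∈ univ.filter (fun e => h e = v), f e)
              + (∑ e ∈ univ.filter (fun e => t e = v), f e) = 0) ∧
        (univ.image
          (fun v => (univ.filter (fun e => h e = v ∨ t e = v)).image f)).card ≤ 5 := by
  classical
  set G : Gr V E := ⟨univ, univ, h, t⟩ with hG
  have hcuteq : ∀ X : Finset V, cut G G.es X =
      univ.filter (fun e => (h e ∈ X ∧ t e ∉ X) ∨ (h e ∉ X ∧ t e ∈ X)) := by
    intro X
    ext e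
    rw [mem_cut]
    simp only [mem_filter, mem_univ, true_and, Cr, hG]
    tauto
  have hok : Ok G := by
    refine ⟨fun e _ => mem_univ _, fun e _ => mem_univ _, fun e _ => hne e, ?_, ?_⟩
    · intro v _
      rw [← hdeg v]
      change (univ.filter (fun e => h e = v ∨ t e = v)).card = _
      rw [filter_or, card_union_of_disjoint]
      rw [Finset.disjoint_left]
      intro e h1 h2
      simp only [mem_filter, mem_univ, true_and] at h1 h2
      exact hne e (h1.trans h2.symm)
    · intro X _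
      rw [hcuteq X]
      exact hbr X
  have hvs : G.vs.card = Fintype.card V := card_univ
  obtain ⟨M, N, hM, hN, hgood⟩ := pair hE hok k hk5 (by
    intro X _ h1 h2
    have h4 : ∀ v, star G (cut G G.es X) v =
        univ.filter (fun e => ((h e ∈ X ∧ t e ∉ X) ∨ (h e ∉ X ∧ t e ∈ X)) ∧
          (h e = v ∨ t e = v)) := by
      intro v
      ext e
      rw [mem_star, hcuteq X]
      simp only [mem_filter, mem_univ, true_and, hG]
    rw [hcuteq X, hvs]
    rw [hcuteq X] at h1
    exact hcut X h1 (fun v => by rw [← h4 v]; exact h2 v))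
  refine flow_of_good h t (G.es \ M) N hok ?_ hN hgood
  intro v
  have h1 : star G (G.es \ M) v = star G G.es v \ star G M v := by
    ext e
    simp only [mem_star, mem_sdiff]
    tauto
  have h2 : star G M v ⊆ star G G.es v := by
    intro e he
    rw [mem_star] at he ⊢
    exact ⟨hM.sub he.1, he.2⟩
  show (star G (G.es \ M) v).card = 2
  rw [h1, card_sdiff_of_subset h2, hok.deg v (mem_univ v), hM.deg v (mem_univ v)]

end Pool.Agent.H51.RG
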