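import Pool.Agent.H43.F5.Three

/-!
# The perfect matching polytope (Edmonds), for MP_994f6a_co

`Wt G w`: the edges of `G` are loopless, have positive weights, the weights at every vertex have sum
one and every odd vertex set has boundary weight at least one. Targets: `T_TUT` existence of a
perfect matching, `T_TIGHT` the induction step for a tight odd cut, `T_DIR` the other step,
`T_EDM` for every cost function some perfect matching costs at most as much as the weighting.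
-/

set_option autoImplicit false
set_option linter.unusedSectionVars false

namespace Pool.Agent.H51.RG

open Pool.Agent.H43.F5 Finset

structure Wt {V E : Type} [DecidableEq V] [DecidableEq E] (G : Gr V E) (w : E → ℚ) : Prop where
  ha : ∀ e ∈ G.es, G.a e ∈ G.vs
  hb : ∀ e ∈ G.es, G.b e ∈ G.vs
  ne : ∀ e ∈ G.es, G.a e ≠ G.b e
  pos : ∀ e ∈ G.es, 0 < w e
  deg : ∀ v ∈ G.vs, ∑ e ∈ star G G.es v, w e = 1
  odd : ∀ X ⊆ G.vs, Odd X.card → 1 ≤ ∑ e ∈ cut G G.es X, w e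

/-- the conclusion: for every cost function a perfect matching of at most average cost -/
def Cheap {V E : Type} [DecidableEq V] [DecidableEq E] (G : Gr V E) (w : E → ℚ) : Prop :=
  ∀ c : E → ℚ, ∃ M, PM G M ∧ ∑ e ∈ M, c e ≤ ∑ e ∈ G.es, c e * w e

/-- TUT: a perfect matching exists (Tutte) -/
def T_TUT : Prop := ∀ (V E : Type) [DecidableEq V] [DecidableEq E] (G : Gr V E) (w : E → ℚ),
  Wt G w → ∃ M, PM G M

/-- TIGHT: a tight odd cut with at least two vertices on both sides -/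
def T_TIGHT : Prop := ∀ (V E : Type) [DecidableEq V] [DecidableEq E] (G : Gr V E) (w : E → ℚ),
  Wt G w → (∀ (G' : Gr V E), G'.vs.card + G'.es.card < G.vs.card + G.es.card → Wt G' w →
    Cheap G' w) →
  ∀ X ⊆ G.vs, Odd X.card → 2 ≤ X.card → 2 ≤ (G.vs \ X).card →
    ∑ e ∈ cut G G.es X, w e = 1 → Cheap G w

/-- DIR: from a perfect matching which costs too much to a cheaper weighting -/
def T_DIR : Prop := ∀ (V E : Type) [DecidableEq V] [DecidableEq E] (G : Gr V E) (w : E → ℚ),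
  Wt G w → (∀ X ⊆ G.vs, Odd X.card → 2 ≤ X.card → 2 ≤ (G.vs \ X).card →
    ∑ e ∈ cut G G.es X, w e ≠ 1) →
  ∀ M, PM G M → ∀ c : E → ℚ, ∑ e ∈ G.es, c e * w e < ∑ e ∈ M, c e →
  ∃ w' : E → ℚ, ∑ e ∈ G.es, c e * w' e ≤ ∑ e ∈ G.es, c e * w e ∧ (∀ e ∈ G.es, 0 ≤ w' e) ∧
    (∀ v ∈ G.vs, ∑ e ∈ star G G.es v, w' e = 1) ∧
    (∀ X ⊆ G.vs, Odd X.card → 1 ≤ ∑ e ∈ cut G G.es X, w' e) ∧
    ((∃ e ∈ G.es, w' e = 0) ∨ ∃ X ⊆ G.vs, Odd X.card ∧ 2 ≤ X.card ∧ 2 ≤ (G.vs \ X).card ∧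
      ∑ e ∈ cut G G.es X, w' e = 1)

/-- EDM: Edmonds' theorem -/
def T_EDM : Prop := ∀ (V E : Type) [DecidableEq V] [DecidableEq E] (G : Gr V E) (w : E → ℚ),
  Wt G w → Cheap G w

end Pool.Agent.H51.RG
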