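import Pool.Agent.H51.RG.Wt3
import Pool.Agent.H41.RG.F4

/-!
# Flows with at most four lines: assembly
-/

set_option autoImplicit false
set_option linter.unusedSectionVars false

namespace Pool.Agent.H51.RG

open Pool.Agent.H43.F5 Finset

theorem four_lines (V E : Type) [Fintype V] [DecidableEq V] [Fintype E]
    [DecidableEq E] (h t : E → V) (hne : ∀ e, h e ≠ t e)
    (hdeg : ∀ v, (univ.filter (fun e => h e = v)).card + (univ.filter (fun e => t e = v)).card = 3)
    (hbr : ∀ S : Finset V,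
      (univ.filter (fun e => (h e ∈ S ∧ t e ∉ S) ∨ (h e ∉ S ∧ t e ∈ S))).card ≠ 1)
    (k : ℕ) (hk5 : 5 ≤ k)
    (hcut : ∀ S : Finset V,
      Odd (univ.filter (fun e => (h e ∈ S ∧ t e ∉ S) ∨ (h e ∉ S ∧ t e ∈ S))).card →
      (∀ v, (univ.filter (fun e => ((h e ∈ S ∧ t e ∉ S) ∨ (h e ∉ S ∧ t e ∈ S)) ∧
        (h e = v ∨ t e = v))).card ≤ 1) →
      (univ.filter (fun e => (h e ∈ S ∧ t e ∉ S) ∨ (h e ∉ S ∧ t e ∈ S))).card = 3 ∨
      (univ.filter (fun e => (h e ∈ S ∧ t e ∉ S) ∨ (h e ∉ S ∧ t e ∈ S))).card = k ∨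
      (k < (univ.filter (fun e => (h e ∈ S ∧ t e ∉ S) ∨ (h e ∉ S ∧ t e ∈ S))).card ∧
        Fintype.card V < 2 * k *
          (univ.filter (fun e => (h e ∈ S ∧ t e ∉ S) ∨ (h e ∉ S ∧ t e ∈ S))).card))
    (hn : Fintype.card V < 2 * k * (2 * k - 3)) :
    ∃ f : E → (Fin 3 → ZMod 2),
        (∀ e, f e ≠ 0) ∧
        (∀ v, (∑ e ∈ univ.filter (fun e => h e = v), f e)
              + (∑ e ∈ univ.filter (fun e => t e = v), f e) = 0) ∧
        (univ.image
          (fun v => (univ.filter (fun e => h e = v ∨ t e = v)).image f)).card ≤ 4 := by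
  classical
  set G : Gr V E := ⟨univ, univ, h, t⟩ with hG
  have hcuteq : ∀ X : Finset V, cut G G.es X =
      univ.filter (fun e => (h e ∈ X ∧ t e ∉ X) ∨ (h e ∉ X ∧ t e ∈ X)) := by
    intro X
    ext e
    rw [mem_cut]
    simp only [mem_filter, mem_univ, true_and, Cr, hG]
    tauto
  have hok : Ok G := by
    refine ⟨fun e _ => mem_univ _, fun e _ => mem_univ _, fun e _ => hne e, ?_, ?_⟩
    · intro v _
      rw [← hdeg v]
      change (univ.filter (fun e => h e = v ∨ t e = v)).card = _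
      rw [filter_or, card_union_of_disjoint]
      rw [Finset.disjoint_left]
      intro e h1 h2
      simp only [mem_filter, mem_univ, true_and] at h1 h2
      exact hne e (h1.trans h2.symm)
    · intro X _
      rw [hcuteq X]
      exact hbr X
  have hvs : G.vs.card = Fintype.card V := card_univ
  obtain ⟨M, N, L, hM, hN, hL, hemp⟩ := triple edm hok k hk5 (by
    intro X _ h1 h2
    have h4 : ∀ v, star G (cut G G.es X) v =
        univ.filter (fun e => ((h e ∈ X ∧ t e ∉ X) ∨ (h e ∉ X ∧ t e ∈ X)) ∧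
          (h e = v ∨ t e = v)) := by
      intro v
      ext e
      rw [mem_star, hcuteq X]
      simp only [mem_filter, mem_univ, true_and, hG]
    rw [hcuteq X, hvs]
    rw [hcuteq X] at h1
    exact hcut X h1 (fun v => by rw [← h4 v]; exact h2 v)) (by rw [hvs]; exact hn)
  exact Pool.Agent.H41.RG.flow4 h t M N L hok hM hN hL hemp

/-- the final form -/
theorem fin4 (V E : Type) [Fintype V] [DecidableEq V] [Fintype E]
    [DecidableEq E] (h t : E → V) (hne : ∀ e, h e ≠ t e)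
    (hdeg : ∀ v, (univ.filter (fun e => h e = v)).card + (univ.filter (fun e => t e = v)).card = 3)
    (hbr : ∀ S : Finset V,
      (univ.filter (fun e => (h e ∈ S ∧ t e ∉ S) ∨ (h e ∉ S ∧ t e ∈ S))).card ≠ 1)
    (k : ℕ) (hk5 : 5 ≤ k)
    (hcut : Fintype.card V < 70 ∨ ∀ S : Finset V,
      Odd (univ.filter (fun e => (h e ∈ S ∧ t e ∉ S) ∨ (h e ∉ S ∧ t e ∈ S))).card →
      (∀ v, (univ.filter (fun e => ((h e ∈ S ∧ t e ∉ S) ∨ (h e ∉ S ∧ t e ∈ S)) ∧
        (h e = v ∨ t e = v))).card ≤ 1) →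
      (univ.filter (fun e => (h e ∈ S ∧ t e ∉ S) ∨ (h e ∉ S ∧ t e ∈ S))).card = 3 ∨
      (univ.filter (fun e => (h e ∈ S ∧ t e ∉ S) ∨ (h e ∉ S ∧ t e ∈ S))).card = k ∨
      (k < (univ.filter (fun e => (h e ∈ S ∧ t e ∉ S) ∨ (h e ∉ S ∧ t e ∈ S))).card ∧
        Fintype.card V < 2 * k *
          (univ.filter (fun e => (h e ∈ S ∧ t e ∉ S) ∨ (h e ∉ S ∧ t e ∈ S))).card)) :
    ∃ f : E → (Fin 3 → ZMod 2),
        (∀ e, f e ≠ 0) ∧
        (∀ v, (∑ e ∈ univ.filter (fun e => h e = v), f e)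
              + (∑ e ∈ univ.filter (fun e => t e = v), f e) = 0) ∧
        (univ.image
          (fun v => (univ.filter (fun e => h e = v ∨ t e = v)).image f)).card ≤ 5 ∧
        (Fintype.card V < 2 * k * (2 * k - 3) → (univ.image
          (fun v => (univ.filter (fun e => h e = v ∨ t e = v)).image f)).card ≤ 4) := by
  by_cases hn : Fintype.card V < 2 * k * (2 * k - 3)
  · have key : ∃ f : E → (Fin 3 → ZMod 2),
        (∀ e, f e ≠ 0) ∧
        (∀ v, (∑ e ∈ univ.filter (fun e => h e = v), f e)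
              + (∑ e ∈ univ.filter (fun e => t e = v), f e) = 0) ∧
        (univ.image
          (fun v => (univ.filter (fun e => h e = v ∨ t e = v)).image f)).card ≤ 4 := by
      rcases hcut with h70 | hcut
      · refine four_lines V E h t hne hdeg hbr 5 le_rfl ?_ h70
        intro S ho _
        have h1 := hbr S
        rw [Nat.odd_iff] at ho
        omega
      · exact four_lines V E h t hne hdeg hbr k hk5 hcut hn
    obtain ⟨f, h1, h2, h3⟩ := key
    exact ⟨f, h1, h2, by omega, fun _ => h3⟩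
  · rcases hcut with h70 | hcut
    · exfalso
      apply hn
      obtain ⟨j, rfl⟩ := Nat.exists_eq_add_of_le hk5
      have h1 : 2 * (5 + j) - 3 = 7 + 2 * j := by omega
      rw [h1]
      nlinarith
    · obtain ⟨f, h1, h2, h3⟩ := fin V E h t hne hdeg hbr k hk5 hcut
      exact ⟨f, h1, h2, h3, fun h4 => absurd h4 hn⟩

end Pool.Agent.H51.RG
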