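import Pool.Agent.H51.RG.Fin

/-!
# Three perfect matchings with empty intersection: the first two
-/

set_option autoImplicit false
set_option linter.unusedSectionVars false

namespace Pool.Agent.H51.RG

open Pool.Agent.H43.F5 Finset

variable {V E : Type} [DecidableEq V] [DecidableEq E] {G : Gr V E} {w : E → ℚ}

/-- a cut inside a perfect matching is a matching -/
lemma cut_matching (hG : Ok G) {M : Finset E} (hM : PM G M) {X : Finset V}
    (h1 : (cut G M X).card = (cut G G.es X).card) (v : V) :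
    (star G (cut G G.es X) v).card ≤ 1 := by
  have h2 : cut G M X = cut G G.es X :=
    eq_of_subset_of_card_le (cut_mono hM.sub X) (by rw [h1])
  have h3 : star G (cut G G.es X) v ⊆ star G M v := by
    intro e he
    rw [mem_star, ← h2, mem_cut] at he
    exact mem_star.2 ⟨he.1.1, he.2⟩
  by_cases hv : v ∈ G.vs
  · have h4 := card_le_card h3
    rw [hM.deg v hv] at h4
    exact h4
  · have h4 : star G M v = ∅ := by
      rw [eq_empty_iff_forall_notMem]
      intro e he
      rw [mem_star] at he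
      rcases he.2 with h5 | h5
      · exact hv (h5 ▸ hG.ha e (hM.sub he.1))
      · exact hv (h5 ▸ hG.hb e (hM.sub he.1))
    have h5 := card_le_card h3
    rw [h4, card_empty] at h5
    omega

/-- Two perfect matchings: both meet the 3-cuts once, no odd cut is contained in both, and they
share at most `n / (2 k)` edges. -/
theorem pair3 (hE : T_EDM) (hG : Ok G) (k : ℕ) (hk5 : 5 ≤ k)
    (hs : ∀ X ⊆ G.vs, Odd (cut G G.es X).card → (∀ v, (star G (cut G G.es X) v).card ≤ 1) →
      (cut G G.es X).card = 3 ∨ (cut G G.es X).card = k ∨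
        (k < (cut G G.es X).card ∧ G.vs.card < 2 * k * (cut G G.es X).card)) :
    ∃ M N, PM G M ∧ PM G N ∧
      (∀ X ⊆ G.vs, Odd X.card → (cut G G.es X).card = 3 →
        (cut G M X).card = 1 ∧ (cut G N X).card = 1) ∧
      (∀ X ⊆ G.vs, Odd X.card → 3 < (cut G G.es X).card → (cut G G.es X).card < k →
        (cut G M X).card ≠ (cut G G.es X).card ∧ (cut G N X).card ≠ (cut G G.es X).card) ∧
      (∀ X ⊆ G.vs, Odd X.card → ¬ ((cut G M X).card = (cut G G.es X).card ∧
        (cut G N X).card = (cut G G.es X).card)) ∧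
      2 * k * (N ∩ M).card ≤ G.vs.card := by
  classical
  -- first matching
  have w1 : Wt G (fun _ => (1 / 3 : ℚ)) := by
    refine ⟨hG.ha, hG.hb, hG.ne, fun _ _ => by norm_num, ?_, ?_⟩
    · intro v hv
      rw [sum_const, hG.deg v hv]; norm_num
    · intro X hX ho
      have h1 := (odd_cut hG hX ho).2
      rw [sum_const, nsmul_eq_mul]
      have : (3 : ℚ) ≤ (cut G G.es X).card := by exact_mod_cast h1
      linarith
  let T3 := G.vs.powerset.filter (fun X => Odd X.card ∧ (cut G G.es X).card = 3)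
  obtain ⟨M, hM, hM3, _⟩ := exact_cuts hE hG w1 T3 (by
    intro X hX
    obtain ⟨h1, h2, h3⟩ := mem_filter.1 hX
    refine ⟨mem_powerset.1 h1, h2, ?_⟩
    rw [sum_const, h3]; norm_num) (fun _ => 0) (fun _ _ => le_refl _)
  -- second matching
  have hkq : (5 : ℚ) ≤ k := by exact_mod_cast hk5
  have hk0 : (0 : ℚ) < k := by linarith
  let w2 : E → ℚ := fun e => if e ∈ M then 1 / k else (k - 1) / (2 * k)
  have hw2 : ∀ A : Finset E, 2 * k * ∑ e ∈ A, w2 e = (k - 1) * A.card - (k - 3) * (A ∩ M).card := by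
    intro A
    have h1 : ∀ e ∈ A, 2 * k * w2 e = (k - 1 : ℚ) - (if e ∈ M then (k - 3 : ℚ) else 0) := by
      intro e _
      show 2 * (k : ℚ) * (if e ∈ M then (1 / k : ℚ) else (k - 1) / (2 * k)) = _
      split_ifs
      · field_simp; ring
      · field_simp; ring
    rw [mul_sum, sum_congr rfl h1, sum_sub_distrib, sum_const, ← sum_filter, sum_const,
      filter_mem_eq_inter, nsmul_eq_mul, nsmul_eq_mul]
    ring
  have hge : ∀ s : ℚ, 2 * k ≤ 2 * k * s → 1 ≤ s := by
    intro s h1
    by_contra h2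
    push Not at h2
    nlinarith
  have heq : ∀ s : ℚ, 2 * k * s = 2 * k → s = 1 := by
    intro s h1
    have : (2 * k : ℚ) ≠ 0 := by positivity
    apply mul_left_cancel₀ this
    rw [h1, mul_one]
  have hcM : ∀ X, cut G G.es X ∩ M = cut G M X := by
    intro X
    ext e
    simp only [mem_inter, mem_cut]
    constructor
    · rintro ⟨⟨_, h2⟩, h3⟩; exact ⟨h3, h2⟩
    · rintro ⟨h3, h2⟩; exact ⟨⟨hM.sub h3, h2⟩, h3⟩
  have hsM : ∀ v, star G G.es v ∩ M = star G M v := by
    intro v
    ext e
    simp only [mem_inter, mem_star]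
    constructor
    · rintro ⟨⟨_, h2⟩, h3⟩; exact ⟨h3, h2⟩
    · rintro ⟨h3, h2⟩; exact ⟨⟨hM.sub h3, h2⟩, h3⟩
  have W2 : Wt G w2 := by
    refine ⟨hG.ha, hG.hb, hG.ne, ?_, ?_, ?_⟩
    · intro e _
      show 0 < (if e ∈ M then (1 / k : ℚ) else (k - 1) / (2 * k))
      split_ifs
      · positivity
      · apply div_pos <;> linarith
    · intro v hv
      apply heq
      rw [hw2, hsM, hG.deg v hv, hM.deg v hv]; push_cast; ring
    · intro X hX ho
      apply hge
      rw [hw2, hcM]
      obtain ⟨h1, h2⟩ := odd_cut hG hX ho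
      have h3 : (cut G M X).card ≤ (cut G G.es X).card := card_le_card (cut_mono hM.sub X)
      have h4 := cutN_parity hG hM hX
      have h5 : 1 ≤ (cut G M X).card := by
        rw [Nat.odd_iff] at ho
        omega
      rcases (by rw [Nat.odd_iff] at h1 ho; omega :
        (cut G M X).card = (cut G G.es X).card ∨
          (cut G M X).card + 2 ≤ (cut G G.es X).card) with h6 | h6
      · have h7 : k ≤ (cut G G.es X).card := by
          rcases hs X hX h1 (cut_matching hG hM h6) with h8 | h8 | h8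
          · have h9 := hM3 X (mem_filter.2 ⟨mem_powerset.2 hX, ho, h8⟩)
            omega
          · omega
          · omega
        have h8 : ((cut G M X).card : ℚ) = (cut G G.es X).card := by exact_mod_cast h6
        have h9 : (k : ℚ) ≤ (cut G G.es X).card := by exact_mod_cast h7
        rw [h8]
        linarith
      · have h8 : ((cut G M X).card : ℚ) + 2 ≤ (cut G G.es X).card := by exact_mod_cast h6
        have h9 : (1 : ℚ) ≤ (cut G M X).card := by exact_mod_cast h5
        nlinarith
  let T5 := G.vs.powerset.filter (fun X => Odd X.card ∧ ((cut G G.es X).card = 3 ∨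
    ((cut G G.es X).card = k ∧ (cut G M X).card = k)))
  obtain ⟨N, hN, hN5, hNM⟩ := exact_cuts hE hG W2 T5 (by
    intro X hX
    obtain ⟨h1, h2, h3⟩ := mem_filter.1 hX
    refine ⟨mem_powerset.1 h1, h2, ?_⟩
    apply heq
    rcases h3 with h3 | ⟨h3, h4⟩
    · rw [hw2, hcM, h3, hM3 X (mem_filter.2 ⟨h1, h2, h3⟩)]; push_cast; ring
    · rw [hw2, hcM, h3, h4]; ring) (fun e => if e ∈ M then 1 else 0) (by
    intro e _
    show (0 : ℚ) ≤ if e ∈ M then 1 else 0
    split_ifs <;> norm_num)
  have hint : 2 * k * (N ∩ M).card ≤ G.vs.card := by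
    have h1 : ∑ e ∈ N, (if e ∈ M then (1 : ℚ) else 0) = (N ∩ M).card := by
      rw [← sum_filter, filter_mem_eq_inter, sum_const, nsmul_eq_mul, mul_one]
    have h2 : ∑ e ∈ G.es, (if e ∈ M then (1 : ℚ) else 0) * w2 e = 1 / k * M.card := by
      have h3 : ∀ e ∈ G.es, (if e ∈ M then (1 : ℚ) else 0) * w2 e =
          if e ∈ M then 1 / (k : ℚ) else 0 := by
        intro e _
        show (if e ∈ M then (1 : ℚ) else 0) * (if e ∈ M then (1 / k : ℚ) else (k - 1) / (2 * k)) = _
        split_ifs
        · ring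
        · ring
      rw [sum_congr rfl h3, ← sum_filter, filter_mem_eq_inter, inter_eq_right.2 hM.sub, sum_const,
        nsmul_eq_mul]
      ring
    rw [h1, h2] at hNM
    have h4 := two_card hG hM
    have h5 : (2 : ℚ) * M.card = G.vs.card := by exact_mod_cast h4
    have h7 : 2 * (k : ℚ) * (N ∩ M).card ≤ 2 * k * (1 / k * M.card) :=
      mul_le_mul_of_nonneg_left hNM (by positivity)
    have h8 : 2 * (k : ℚ) * (1 / k * M.card) = 2 * M.card := by field_simp
    have h6 : 2 * (k : ℚ) * (N ∩ M).card ≤ G.vs.card := by linarith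
    exact_mod_cast h6
  refine ⟨M, N, hM, hN, ?_, ?_, ?_, hint⟩
  · intro X hX ho h3
    exact ⟨hM3 X (mem_filter.2 ⟨mem_powerset.2 hX, ho, h3⟩),
      hN5 X (mem_filter.2 ⟨mem_powerset.2 hX, ho, Or.inl h3⟩)⟩
  · intro X hX ho h3 hk
    constructor
    · intro h4
      rcases hs X hX (odd_cut hG hX ho).1 (cut_matching hG hM h4) with h5 | h5 | h5 <;> omega
    · intro h4
      rcases hs X hX (odd_cut hG hX ho).1 (cut_matching hG hN h4) with h5 | h5 | h5 <;> omega
  · intro X hX hnot ⟨h4, h5⟩
    obtain ⟨h1, h2⟩ := odd_cut hG hX hnot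
    have e1 : cut G M X = cut G G.es X :=
      eq_of_subset_of_card_le (cut_mono hM.sub X) (by rw [h4])
    have e2 : cut G N X = cut G G.es X :=
      eq_of_subset_of_card_le (cut_mono hN.sub X) (by rw [h5])
    rcases hs X hX h1 (cut_matching hG hM h4) with h3 | h3 | ⟨h3, h7⟩
    · have h6 := hM3 X (mem_filter.2 ⟨mem_powerset.2 hX, hnot, h3⟩)
      omega
    · have h6 := hN5 X (mem_filter.2 ⟨mem_powerset.2 hX, hnot, Or.inr ⟨h3, by rw [e1]; exact h3⟩⟩)
      omega
    · have h8 : (cut G G.es X).card ≤ (N ∩ M).card := by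
        apply card_le_card
        intro e he
        have hm : e ∈ cut G M X := by rw [e1]; exact he
        have hn : e ∈ cut G N X := by rw [e2]; exact he
        exact mem_inter.2 ⟨(mem_cut.1 hn).1, (mem_cut.1 hm).1⟩
      have h6 := Nat.mul_le_mul_left (2 * k) h8
      omega

end Pool.Agent.H51.RG
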