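import Pool.Agent.H51.RG.Tri

/-!
# The third weighting
-/

set_option autoImplicit false
set_option linter.unusedSectionVars false

namespace Pool.Agent.H51.RG

open Pool.Agent.H43.F5 Finset

variable {V E : Type} [DecidableEq V] [DecidableEq E] {G : Gr V E}

/-- `1 / y` on both, `(y + 1) / (4 y)` on exactly one, `(y - 1) / (2 y)` on none -/
def w3 (M N : Finset E) (y : ℚ) : E → ℚ := fun e =>
  if e ∈ M then (if e ∈ N then 1 / y else (y + 1) / (4 * y))
  else (if e ∈ N then (y + 1) / (4 * y) else (y - 1) / (2 * y))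

lemma w3_sum (M N A : Finset E) (y : ℚ) (hy : 0 < y) :
    4 * y * ∑ e ∈ A, w3 M N y e = 2 * (y - 1) * A.card - (y - 3) * ((A ∩ M).card + (A ∩ N).card) := by
  have h1 : ∀ e ∈ A, 4 * y * w3 M N y e = 2 * (y - 1) - (if e ∈ M then (y - 3) else 0)
      - (if e ∈ N then (y - 3) else 0) := by
    intro e _
    unfold w3
    split_ifs <;> field_simp <;> ring
  rw [mul_sum, sum_congr rfl h1, sum_sub_distrib, sum_sub_distrib, sum_const, ← sum_filter,
    ← sum_filter, sum_const, sum_const, filter_mem_eq_inter, filter_mem_eq_inter,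
    nsmul_eq_mul, nsmul_eq_mul, nsmul_eq_mul]
  ring

lemma cut_inter {M : Finset E} (hM : PM G M) (X : Finset V) : cut G G.es X ∩ M = cut G M X := by
  ext e
  simp only [mem_inter, mem_cut]
  constructor
  · rintro ⟨⟨_, h2⟩, h3⟩; exact ⟨h3, h2⟩
  · rintro ⟨h3, h2⟩; exact ⟨⟨hM.sub h3, h2⟩, h3⟩

lemma star_inter {M : Finset E} (hM : PM G M) (v : V) : star G G.es v ∩ M = star G M v := by
  ext e
  simp only [mem_inter, mem_star]
  constructor
  · rintro ⟨⟨_, h2⟩, h3⟩; exact ⟨h3, h2⟩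
  · rintro ⟨h3, h2⟩; exact ⟨⟨hM.sub h3, h2⟩, h3⟩

theorem wt3 (hG : Ok G) {M N : Finset E} (hM : PM G M) (hN : PM G N) (k : ℕ) (hk : 5 ≤ k)
    (h3 : ∀ X ⊆ G.vs, Odd X.card → (cut G G.es X).card = 3 →
        (cut G M X).card = 1 ∧ (cut G N X).card = 1)
    (h5 : ∀ X ⊆ G.vs, Odd X.card → 3 < (cut G G.es X).card → (cut G G.es X).card < k →
        (cut G M X).card ≠ (cut G G.es X).card ∧ (cut G N X).card ≠ (cut G G.es X).card)
    (hb : ∀ X ⊆ G.vs, Odd X.card → ¬ ((cut G M X).card = (cut G G.es X).card ∧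
        (cut G N X).card = (cut G G.es X).card)) :
    Wt G (w3 M N (2 * k - 3)) := by
  have hkq : (5 : ℚ) ≤ k := by exact_mod_cast hk
  set y : ℚ := 2 * k - 3 with hy
  have hy7 : 7 ≤ y := by rw [hy]; linarith
  have hy0 : 0 < y := by linarith
  have hge : ∀ s : ℚ, 4 * y ≤ 4 * y * s → 1 ≤ s := by
    intro s h1
    by_contra h2
    push Not at h2
    nlinarith
  refine ⟨hG.ha, hG.hb, hG.ne, ?_, ?_, ?_⟩
  · intro e _
    have e1 : (0 : ℚ) < 1 / y := by positivity
    have e2 : (0 : ℚ) < (y + 1) / (4 * y) := by positivity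
    have e3 : (0 : ℚ) < (y - 1) / (2 * y) := div_pos (by linarith) (by linarith)
    unfold w3
    split_ifs <;> assumption
  · intro v hv
    have h1 := w3_sum M N (star G G.es v) y hy0
    rw [star_inter hM, star_inter hN, hG.deg v hv, hM.deg v hv, hN.deg v hv] at h1
    have h2 : 4 * y * ∑ e ∈ star G G.es v, w3 M N y e = 4 * y * 1 := by
      rw [h1]; push_cast; ring
    exact mul_left_cancel₀ (by positivity) h2
  · intro X hX ho
    apply hge
    rw [w3_sum M N _ y hy0, cut_inter hM, cut_inter hN]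
    obtain ⟨g1, g2⟩ := odd_cut hG hX ho
    have a1 : (cut G M X).card ≤ (cut G G.es X).card := card_le_card (cut_mono hM.sub X)
    have b1 : (cut G N X).card ≤ (cut G G.es X).card := card_le_card (cut_mono hN.sub X)
    have a2 := cutN_parity hG hM hX
    have b2 := cutN_parity hG hN hX
    have c3 := h3 X hX ho
    have c5 := h5 X hX ho
    have cb := hb X hX ho
    revert a1 b1 a2 b2 c3 c5 cb g1 g2
    generalize (cut G G.es X).card = t
    generalize (cut G M X).card = a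
    generalize (cut G N X).card = b
    intro g1 g2 a1 b1 a2 b2 c3 c5 cb
    rw [Nat.odd_iff] at g1 ho
    rcases (by omega : t = 3 ∨ (3 < t ∧ t < k) ∨ (3 < t ∧ k ≤ t)) with g | ⟨g, g'⟩ | ⟨g, g'⟩
    · obtain ⟨u1, u2⟩ := c3 g
      rw [g, u1, u2]
      push_cast
      linarith
    · obtain ⟨u1, u2⟩ := c5 g g'
      have v1 : a + 2 ≤ t := by omega
      have v2 : b + 2 ≤ t := by omega
      have q1 : (a : ℚ) + 2 ≤ t := by exact_mod_cast v1
      have q2 : (b : ℚ) + 2 ≤ t := by exact_mod_cast v2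
      have q3 : (3 : ℚ) ≤ t := by exact_mod_cast g2
      have q4 : (y - 3) * ((a : ℚ) + b) ≤ (y - 3) * (2 * t - 4) :=
        mul_le_mul_of_nonneg_left (by linarith) (by linarith)
      nlinarith
    · have v1 : a + b + 2 ≤ 2 * t := by
        by_contra hcon
        exact cb ⟨by omega, by omega⟩
      have q1 : (a : ℚ) + b + 2 ≤ 2 * t := by exact_mod_cast v1
      have q3 : (k : ℚ) ≤ t := by exact_mod_cast g'
      have q4 : (y - 3) * ((a : ℚ) + b) ≤ (y - 3) * (2 * t - 2) :=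
        mul_le_mul_of_nonneg_left (by linarith) (by linarith)
      have q5 : 2 * (y - 1) * t - (y - 3) * (2 * t - 2) = 4 * t + 2 * y - 6 := by ring
      have q6 : (4 : ℚ) * k = 2 * y + 6 := by rw [hy]; ring
      linarith

/-- Three perfect matchings with empty intersection. -/
theorem triple (hE : T_EDM) (hG : Ok G) (k : ℕ) (hk5 : 5 ≤ k)
    (hs : ∀ X ⊆ G.vs, Odd (cut G G.es X).card → (∀ v, (star G (cut G G.es X) v).card ≤ 1) →
      (cut G G.es X).card = 3 ∨ (cut G G.es X).card = k ∨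
        (k < (cut G G.es X).card ∧ G.vs.card < 2 * k * (cut G G.es X).card))
    (hn : G.vs.card < 2 * k * (2 * k - 3)) :
    ∃ M N L, PM G M ∧ PM G N ∧ PM G L ∧ ∀ e, ¬ (e ∈ M ∧ e ∈ N ∧ e ∈ L) := by
  classical
  obtain ⟨M, N, hM, hN, h3, h5, hb, hint⟩ := pair3 hE hG k hk5 hs
  have hkq : (5 : ℚ) ≤ k := by exact_mod_cast hk5
  have hW := wt3 hG hM hN k hk5 h3 h5 hb
  obtain ⟨L, hL, hle⟩ := hE V E G _ hW (fun e => if e ∈ N ∩ M then 1 else 0)
  refine ⟨M, N, L, hM, hN, hL, ?_⟩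
  have e1 : ∑ e ∈ L, (if e ∈ N ∩ M then (1 : ℚ) else 0) = (L ∩ (N ∩ M)).card := by
    rw [← sum_filter, filter_mem_eq_inter, sum_const, nsmul_eq_mul, mul_one]
  have e2 : ∑ e ∈ G.es, (if e ∈ N ∩ M then (1 : ℚ) else 0) * w3 M N (2 * k - 3) e =
      1 / (2 * k - 3) * (N ∩ M).card := by
    have h3 : ∀ e ∈ G.es, (if e ∈ N ∩ M then (1 : ℚ) else 0) * w3 M N (2 * k - 3) e =
        if e ∈ N ∩ M then 1 / (2 * (k : ℚ) - 3) else 0 := by
      intro e _
      by_cases h : e ∈ N ∩ M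
      · rw [if_pos h, if_pos h, one_mul]
        unfold w3
        rw [if_pos (mem_inter.1 h).2, if_pos (mem_inter.1 h).1]
      · rw [if_neg h, if_neg h, zero_mul]
    rw [sum_congr rfl h3, ← sum_filter, filter_mem_eq_inter,
      inter_eq_right.2 (inter_subset_left.trans hN.sub), sum_const, nsmul_eq_mul]
    ring
  rw [e1, e2] at hle
  have hy0 : (0 : ℚ) < 2 * k - 3 := by linarith
  have h10 : ((N ∩ M).card : ℚ) < 2 * k - 3 := by
    have h7 : 2 * k * (N ∩ M).card < 2 * k * (2 * k - 3) := lt_of_le_of_lt hint hn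
    have h8 : (N ∩ M).card < 2 * k - 3 := Nat.lt_of_mul_lt_mul_left h7
    have h9 : (N ∩ M).card + 3 < 2 * k := by omega
    have h6 : ((N ∩ M).card : ℚ) + 3 < 2 * k := by exact_mod_cast h9
    linarith
  have h11 : ((L ∩ (N ∩ M)).card : ℚ) < 1 := by
    refine lt_of_le_of_lt hle ?_
    rw [div_mul_eq_mul_div, one_mul, div_lt_one hy0]
    exact h10
  have h12 : (L ∩ (N ∩ M)).card = 0 := by
    have : (L ∩ (N ∩ M)).card < 1 := by exact_mod_cast h11
    omega
  rintro e ⟨u1, u2, u3⟩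
  have : e ∈ L ∩ (N ∩ M) := mem_inter.2 ⟨u3, mem_inter.2 ⟨u2, u1⟩⟩
  rw [card_eq_zero.1 h12] at this
  exact absurd this (notMem_empty e)

end Pool.Agent.H51.RG
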